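import Pool.Agent.Y163.SL.RegD

/-!
Complete intersections of products of linear forms: the weak and the strong Lefschetz questions are
equivalent, in every common degree.
-/

set_option autoImplicit false

open MvPolynomial

namespace Pool.Agent.Results.MP_53b7aa_ag.DoubleWeak

variable {K : Type} [Field K] {n : ℕ}

/-- The class of the problem: `f_i` is a product of `a i ≥ 1` linear forms, and a nonzerodivisor
modulo `(f_1, …, f_(i-1))`, for all `i`. -/
def Cls (a : Fin n → ℕ) (f : Fin n → MvPolynomial (Fin n) K) : Prop :=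
  (∀ i, 1 ≤ a i) ∧
  (∀ i, ∃ l : Fin (a i) → MvPolynomial (Fin n) K, (∀ j, (l j).IsHomogeneous 1) ∧ f i = ∏ j, l j) ∧
  ∀ i, ∀ h : MvPolynomial (Fin n) K, f i * h ∈ Ideal.span (f '' {j | j < i}) →
    h ∈ Ideal.span (f '' {j | j < i})

/-- `K[x_1, …, x_n] / (f_1, …, f_n)` has the weak Lefschetz property. -/
def WLP (f : Fin n → MvPolynomial (Fin n) K) : Prop :=
  ∃ l : MvPolynomial (Fin n) K, l.IsHomogeneous 1 ∧ ∀ i : ℕ,
    (∀ g ∈ homogeneousSubmodule (Fin n) K i, l * g ∈ Ideal.span (Set.range f) →
      g ∈ Ideal.span (Set.range f)) ∨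
    ∀ h ∈ homogeneousSubmodule (Fin n) K (i + 1), ∃ g ∈ homogeneousSubmodule (Fin n) K i,
      h - l * g ∈ Ideal.span (Set.range f)

/-- `K[x_1, …, x_n] / (f_1, …, f_n)` has the strong Lefschetz property. -/
def SLP (f : Fin n → MvPolynomial (Fin n) K) : Prop :=
  ∃ l : MvPolynomial (Fin n) K, l.IsHomogeneous 1 ∧ ∀ i k : ℕ,
    (∀ g ∈ homogeneousSubmodule (Fin n) K i, l ^ k * g ∈ Ideal.span (Set.range f) →
      g ∈ Ideal.span (Set.range f)) ∨
    ∀ h ∈ homogeneousSubmodule (Fin n) K (i + k), ∃ g ∈ homogeneousSubmodule (Fin n) K i,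
      h - l ^ k * g ∈ Ideal.span (Set.range f)

/-- `f_1(x), …, f_n(x), f_1(y), …, f_n(y)` in `2 n` variables. -/
noncomputable def double (f : Fin n → MvPolynomial (Fin n) K) :
    Fin (n + n) → MvPolynomial (Fin (n + n)) K :=
  Fin.append (fun i => rename (Fin.castAdd n) (f i)) (fun i => rename (Fin.natAdd n) (f i))

lemma ci {a : Fin n → ℕ} {f : Fin n → MvPolynomial (Fin n) K} (h : Cls a f) :
    Pool.Agent.Y163.SL.CI f a := by
  refine ⟨fun i => ?_, h.1, h.2.2⟩
  obtain ⟨l, hl, hfl⟩ := h.2.1 i
  rw [hfl]
  have := IsHomogeneous.prod Finset.univ l (fun _ => 1) (fun j _ => hl j)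
  simpa using this

lemma cls_double {a : Fin n → ℕ} {f : Fin n → MvPolynomial (Fin n) K} (h : Cls a f) :
    Cls (Fin.append a a) (double f) := by
  have h1 := (ci h).dbl
  refine ⟨h1.he, fun i => ?_, h1.hreg⟩
  induction i using Fin.addCases with
  | left j =>
    obtain ⟨l, hl, hfl⟩ := h.2.1 j
    rw [double, Fin.append_left, Fin.append_left]
    exact ⟨fun k => rename (Fin.castAdd n) (l k), fun k => (hl k).rename_isHomogeneous, by
      rw [hfl, map_prod]⟩
  | right j =>
    obtain ⟨l, hl, hfl⟩ := h.2.1 j
    rw [double, Fin.append_right, Fin.append_right]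
    exact ⟨fun k => rename (Fin.natAdd n) (l k), fun k => (hl k).rename_isHomogeneous, by
      rw [hfl, map_prod]⟩

lemma main [CharZero K] {a : Fin n → ℕ} {f : Fin n → MvPolynomial (Fin n) K} (h : Cls a f) :
    SLP f ↔ WLP (double f) := Pool.Agent.Y163.SL.slp_wlp' (ci h)

/-- **Complete intersections of products of linear forms.**

Let `K` be a field of characteristic zero.

(1) Let `f_1, …, f_n` be a complete intersection in `n` variables, `f_i` a product of `a_i` linear
forms. Then `f_1(x), …, f_n(x), f_1(y), …, f_n(y)` is a complete intersection of the same kind in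
`2 n` variables, and `K[x] / (f)` has the strong Lefschetz property if and only if
`K[x, y] / (f(x), f(y))` has the weak Lefschetz property.

(2) Let `D` be any set of positive integers, for example `D = {d}`. All complete intersections of
products of linear forms over `K` with all degrees `a_i` in `D` (in any number of variables) have the
weak Lefschetz property if and only if they all have the strong Lefschetz property. -/
theorem result (K : Type) [Field K] [CharZero K] :
    (∀ (n : ℕ) (a : Fin n → ℕ) (f : Fin n → MvPolynomial (Fin n) K), Cls a f →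
      Cls (Fin.append a a) (double f) ∧ (SLP f ↔ WLP (double f))) ∧
    ∀ D : Set ℕ,
      ((∀ (n : ℕ) (a : Fin n → ℕ) (f : Fin n → MvPolynomial (Fin n) K), Cls a f → (∀ i, a i ∈ D) →
        WLP f) ↔
      ∀ (n : ℕ) (a : Fin n → ℕ) (f : Fin n → MvPolynomial (Fin n) K), Cls a f → (∀ i, a i ∈ D) →
        SLP f) := by
  refine ⟨fun n a f h => ⟨cls_double h, main h⟩, fun D => ⟨fun H n a f h hD => ?_,
    fun H n a f h hD => ?_⟩⟩
  · refine (main h).2 (H (n + n) (Fin.append a a) (double f) (cls_double h) fun i => ?_)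
    induction i using Fin.addCases with
    | left j =>
      rw [Fin.append_left]
      exact hD j
    | right j =>
      rw [Fin.append_right]
      exact hD j
  · obtain ⟨l, hl, h1⟩ := H n a f h hD
    refine ⟨l, hl, fun i => ?_⟩
    have h2 := h1 i 1
    simpa only [pow_one] using h2

end Pool.Agent.Results.MP_53b7aa_ag.DoubleWeak
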