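import Pool.Agent.Y204.LF.Range2

/-!
Artinian complete intersections of products of linear forms in at least four variables: the range in
which the maps `ℓ ^ k : A_i → A_{i+k}` have maximal rank, and the weak Lefschetz property for six
products of two linear forms.
-/

open MvPolynomial

namespace Pool.Agent.Results.MP_53b7aa_ag.SixProducts

/-- Let `K` be a field of characteristic zero and `f_i = ∏_j l_ij` a product of `e_i` linear forms in
`r = n + 4 ≥ 4` variables, `1 ≤ e_1 ≤ … ≤ e_r`, such that `f_1, …, f_r` is a regular sequence. Let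
`A = K[x_1, …, x_r] / (f_1, …, f_r)`, `D = e_r` and `σ = ∑ (e_j - 1)`.  Assume that one of the
following holds:

* `M < D`;
* `M = D` and `2 D ≤ σ + 1`;
* `M = D + 1`, `3 D ≤ σ` and `D + 4 ≤ e_1 + e_2 + e_3`;
* `r ≥ 5`, `e_3 ≥ 3` and `2 M ≤ e_1 + e_2 + D`.

Then there is a linear form `ℓ` such that the map `ℓ ^ k : A_i → A_{i+k}` is injective if
`i + k ≤ M` and surjective if `i ≥ σ - M`.  For six products of two linear forms in six variables
`M = 3` is allowed and `σ = 6`; hence `A` has the weak Lefschetz property. -/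
theorem result (K : Type*) [Field K] [CharZero K] (n : ℕ)
    (f : Fin (n + 4) → MvPolynomial (Fin (n + 4)) K) (e : Fin (n + 4) → ℕ)
    (l : (i : Fin (n + 4)) → Fin (e i) → MvPolynomial (Fin (n + 4)) K)
    (hl : ∀ i j, (l i j).IsHomogeneous 1) (hf : ∀ i, f i = ∏ j, l i j)
    (he : ∀ i, 1 ≤ e i) (hmono : Monotone e)
    (hreg : RingTheory.Sequence.IsRegular (MvPolynomial (Fin (n + 4)) K) (List.ofFn f)) :
    (∀ M : ℕ,
      M < e (Fin.last (n + 3)) ∨
      (M = e (Fin.last (n + 3)) ∧ 2 * e (Fin.last (n + 3)) ≤ ∑ j, (e j - 1) + 1) ∨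
      (M = e (Fin.last (n + 3)) + 1 ∧ 3 * e (Fin.last (n + 3)) ≤ ∑ j, (e j - 1) ∧
        e (Fin.last (n + 3)) + 4 ≤ e 0 + e 1 + e 2) ∨
      (5 ≤ n + 4 ∧ 3 ≤ e 2 ∧ 2 * M ≤ e 0 + e 1 + e (Fin.last (n + 3))) →
      ∃ L : MvPolynomial (Fin (n + 4)) K, L.IsHomogeneous 1 ∧ ∀ i k : ℕ,
        (i + k ≤ M → ∀ g : MvPolynomial (Fin (n + 4)) K, g.IsHomogeneous i →
          L ^ k * g ∈ Ideal.span (Set.range f) → g ∈ Ideal.span (Set.range f)) ∧
        (∑ j, (e j - 1) ≤ i + M → ∀ h : MvPolynomial (Fin (n + 4)) K, h.IsHomogeneous (i + k) →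
          ∃ g : MvPolynomial (Fin (n + 4)) K, g.IsHomogeneous i ∧
            h - L ^ k * g ∈ Ideal.span (Set.range f))) ∧
    (n + 4 = 6 → (∀ j, e j = 2) →
      ∃ L : MvPolynomial (Fin (n + 4)) K, L.IsHomogeneous 1 ∧ ∀ i : ℕ,
        (∀ g : MvPolynomial (Fin (n + 4)) K, g.IsHomogeneous i →
          L * g ∈ Ideal.span (Set.range f) → g ∈ Ideal.span (Set.range f)) ∨
        (∀ h : MvPolynomial (Fin (n + 4)) K, h.IsHomogeneous (i + 1) →
          ∃ g : MvPolynomial (Fin (n + 4)) K, g.IsHomogeneous i ∧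
            h - L * g ∈ Ideal.span (Set.range f))) := by
  have hfh : ∀ i, (f i).IsHomogeneous (e i) := by
    intro i
    rw [hf i]
    have := IsHomogeneous.prod Finset.univ (l i) (fun _ => 1) (fun j _ => hl i j)
    simpa using this
  have hreg' := H503R3.QCI.reg_of_isWeaklyRegular hreg.toIsWeaklyRegular
  have hsum : ∑ j, (e j - 1) =
      ∑ i : Fin (n + 3), (e i.castSucc - 1) + (e (Fin.last (n + 3)) - 1) :=
    Fin.sum_univ_castSucc _
  have hD := he (Fin.last (n + 3))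
  have h1 : ∀ M : ℕ,
      M < e (Fin.last (n + 3)) ∨
      (M = e (Fin.last (n + 3)) ∧ 2 * e (Fin.last (n + 3)) ≤ ∑ j, (e j - 1) + 1) ∨
      (M = e (Fin.last (n + 3)) + 1 ∧ 3 * e (Fin.last (n + 3)) ≤ ∑ j, (e j - 1) ∧
        e (Fin.last (n + 3)) + 4 ≤ e 0 + e 1 + e 2) ∨
      (5 ≤ n + 4 ∧ 3 ≤ e 2 ∧ 2 * M ≤ e 0 + e 1 + e (Fin.last (n + 3))) →
      ∃ L : MvPolynomial (Fin (n + 4)) K, L.IsHomogeneous 1 ∧ ∀ i k : ℕ,
        (i + k ≤ M → ∀ g : MvPolynomial (Fin (n + 4)) K, g.IsHomogeneous i →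
          L ^ k * g ∈ Ideal.span (Set.range f) → g ∈ Ideal.span (Set.range f)) ∧
        (∑ j, (e j - 1) ≤ i + M → ∀ h : MvPolynomial (Fin (n + 4)) K, h.IsHomogeneous (i + k) →
          ∃ g : MvPolynomial (Fin (n + 4)) K, g.IsHomogeneous i ∧
            h - L ^ k * g ∈ Ideal.span (Set.range f)) := by
    intro M hM
    have e0 : e ⟨0, by omega⟩ = e 0 := rfl
    have e1 : e ⟨1, by omega⟩ = e 1 := by
      congr 1
    have e2 : e ⟨2, by omega⟩ = e 2 := by
      congr 1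
    obtain ⟨ℓ, hℓ, h2⟩ := Pool.Agent.Y204.LF.range_main (N := n + 3) (M := M) (by omega) hfh he
      hmono hreg' (by
        rw [e0, e1, e2, Pool.Agent.Y204.LF.Num]
        rcases hM with h | h | h | h
        · exact Or.inl h
        · exact Or.inr (Or.inl ⟨h.1, by omega⟩)
        · exact Or.inr (Or.inr (Or.inl ⟨h.1, by omega, h.2.2⟩))
        · exact Or.inr (Or.inr (Or.inr ⟨by omega, h.2.2, h.2.1⟩)))
    exact ⟨ℓ, hℓ, fun i k => ⟨fun hi g hg h => (h2 i k).1 hi g hg h, fun hi h hh =>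
      (h2 i k).2 hi h hh⟩⟩
  refine ⟨h1, ?_⟩
  intro hn6 he2
  have h4 : ∑ j, (e j - 1) = 6 := by
    simp [he2, hn6]
  obtain ⟨L, hL, h2⟩ := h1 3 (Or.inr (Or.inr (Or.inl (by
    rw [he2, he2, he2, he2, h4]; omega))))
  refine ⟨L, hL, fun i => ?_⟩
  rcases Nat.lt_or_ge i 3 with hi | hi
  · left
    intro g hg h
    refine (h2 i 1).1 (by omega) g hg ?_
    rwa [pow_one]
  · right
    intro h hh
    obtain ⟨g, hg, h5⟩ := (h2 i 1).2 (by omega) h hh
    rw [pow_one] at h5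
    exact ⟨g, hg, h5⟩

end Pool.Agent.Results.MP_53b7aa_ag.SixProducts
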